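import Pool.Agent.helper36.LT.Structs

set_option autoImplicit false

/-!
# The realisation of a simply connected chamber system of large type

`cx_sc`: it is simply connected. `proper`: a group acting on it with finite stabilisers of classes
is in every class `P` with the closure properties `Closed`.
-/

namespace Pool.Agent.helper36.LT

open Pool.Agent.helper34

variable {S B : Type}

namespace Realise

/-- the type of chambers -/
def ty0 (S : Type) : Ty S := ⟨∅, Or.inl rfl⟩

theorem cl_eq {X : Sys S B} {T : Ty S} {b c : B} (h : X.r T.1 b c) : cl X T b = cl X T c := by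
  unfold cl
  congr 1
  exact Quotient.sound (s := X.setoid T) h

theorem cl_inj {X : Sys S B} {T T' : Ty S} {b c : B} (h : cl X T b = cl X T' c) :
    T = T' ∧ X.r T.1 b c := by
  have h1 : T = T' := congrArg Sigma.fst h
  subst h1
  refine ⟨rfl, ?_⟩
  have h2 : Quotient.mk (X.setoid T) b = Quotient.mk (X.setoid T) c :=
    eq_of_heq (Sigma.mk.inj h).2
  exact Quotient.exact h2

theorem cl_surj {X : Sys S B} (v : Vert X) : ∃ b, v = cl X v.1 b := by
  obtain ⟨T, q⟩ := v
  induction q using Quotient.ind with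
  | _ b => exact ⟨b, rfl⟩

theorem cmp0 {T : Ty S} (h : T.1 ≠ ∅) : Cmp (ty0 S) T :=
  Or.inl (Set.empty_ssubset.2 (Set.nonempty_iff_ne_empty.2 h))

theorem cmp_symm {T T' : Ty S} (h : Cmp T T') : Cmp T' T := Or.symm h

theorem edge_dn {X : Sys S B} {T : Ty S} (h : T.1 ≠ ∅) (b : B) :
    (cx X).edge (cl X T b) (cl X (ty0 S) b) := ⟨b, T, ty0 S, cmp_symm (cmp0 h), rfl, rfl⟩

theorem edge_up {X : Sys S B} {T : Ty S} (h : T.1 ≠ ∅) (b : B) :
    (cx X).edge (cl X (ty0 S) b) (cl X T b) := ⟨b, ty0 S, T, cmp0 h, rfl, rfl⟩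

open Classical in
/-- the edge path of a gallery -/
noncomputable def gpath (X : Sys S B) : List (Set S × B) → List (Vert X)
  | [] => []
  | x :: l => if h : IsTy x.1 ∧ x.1 ≠ ∅ then cl X ⟨x.1, h.1⟩ x.2 :: cl X (ty0 S) x.2 :: gpath X l
      else gpath X l

open Classical in
/-- from a class to one of its chambers -/
noncomputable def dn (X : Sys S B) (T : Ty S) (b : B) : List (Vert X) :=
  if T.1 = ∅ then [] else [cl X (ty0 S) b]

open Classical in
/-- from a chamber to its class -/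
noncomputable def up (X : Sys S B) (T : Ty S) (b : B) : List (Vert X) :=
  if T.1 = ∅ then [] else [cl X T b]

theorem gpath_nil (X : Sys S B) : gpath X [] = [] := rfl

open Classical in
theorem gpath_cons' (X : Sys S B) (x : Set S × B) (l : List (Set S × B)) :
    gpath X (x :: l) = if h : IsTy x.1 ∧ x.1 ≠ ∅ then
      cl X ⟨x.1, h.1⟩ x.2 :: cl X (ty0 S) x.2 :: gpath X l else gpath X l := rfl

theorem gpath_cons_empty (X : Sys S B) (T : Set S) (c : B) (l : List (Set S × B)) (h : T = ∅) :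
    gpath X ((T, c) :: l) = gpath X l := by
  rw [gpath_cons', dif_neg]
  rintro ⟨_, h2⟩
  exact h2 h

theorem gpath_cons (X : Sys S B) (T : Set S) (c : B) (l : List (Set S × B)) (h : T ≠ ∅)
    (hT : IsTy T) :
    gpath X ((T, c) :: l) = cl X ⟨T, hT⟩ c :: cl X (ty0 S) c :: gpath X l := by
  rw [gpath_cons', dif_pos ⟨hT, h⟩]

theorem gpath_append (X : Sys S B) (l m : List (Set S × B)) :
    gpath X (l ++ m) = gpath X l ++ gpath X m := by
  induction l with
  | nil => rfl
  | cons x l ih =>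
    rw [List.cons_append, gpath_cons', gpath_cons']
    split_ifs with h
    · rw [ih]; rfl
    · rw [ih]

theorem eq_ty0 {T : Ty S} (h : T.1 = ∅) : T = ty0 S := Subtype.ext h

theorem fin_append (b : B) (l m : List (Set S × B)) : fin b (l ++ m) = fin (fin b l) m := by
  induction l generalizing b with
  | nil => rfl
  | cons x l ih => exact ih x.2

theorem isGal_append {X : Sys S B} (b : B) (l m : List (Set S × B)) :
    IsGal X b (l ++ m) ↔ IsGal X b l ∧ IsGal X (fin b l) m := by
  induction l generalizing b with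
  | nil => simp [IsGal, fin]
  | cons x l ih =>
    change (IsTy x.1 ∧ X.r x.1 b x.2 ∧ IsGal X x.2 (l ++ m)) ↔
      (IsTy x.1 ∧ X.r x.1 b x.2 ∧ IsGal X x.2 l) ∧ IsGal X (fin x.2 l) m
    rw [ih]
    tauto

theorem hom_isGal {X : Sys S B} {b : B} {l m : List (Set S × B)} (h : Hom X b l m) :
    IsGal X b l ↔ IsGal X b m := by
  induction h with
  | refl => rfl
  | symm _ _ _ _ ih => exact ih.symm
  | trans _ _ _ _ _ _ ih1 ih2 => exact ih1.trans ih2
  | cons b x l m _ ih =>
    change (IsTy x.1 ∧ X.r x.1 b x.2 ∧ IsGal X x.2 l) ↔ (IsTy x.1 ∧ X.r x.1 b x.2 ∧ IsGal X x.2 m)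
    rw [ih]
  | triv b T l hT => exact ⟨fun h => h.2.2, fun h => ⟨hT, X.refl _ _ hT, h⟩⟩
  | comp b c d T l hT h1 h2 =>
    exact ⟨fun h => ⟨hT, X.trans _ _ _ _ hT h1 h2, h.2.2.2.2⟩,
      fun h => ⟨hT, h1, hT, h2, h.2.2⟩⟩
  | sub b c T T' l hT hT' hTT h1 =>
    exact ⟨fun h => ⟨hT', X.mono _ _ _ _ hTT hT hT' h1, h.2.2⟩, fun h => ⟨hT, h1, h.2.2⟩⟩

theorem gpath_isPath {X : Sys S B} {b : B} {l : List (Set S × B)} (h : IsGal X b l) :
    FJ2.IsPath (cx X) (cl X (ty0 S) b) (gpath X l) := by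
  induction l generalizing b with
  | nil => trivial
  | cons x l ih =>
    obtain ⟨T, c⟩ := x
    obtain ⟨hT, h1, h2⟩ := h
    by_cases hT0 : T = ∅
    · rw [gpath_cons_empty X T c l hT0]
      subst hT0
      have : b = c := X.zero _ _ h1
      rw [this]
      exact ih h2
    · rw [gpath_cons X T c l hT0 hT]
      refine ⟨?_, edge_dn hT0 c, ih h2⟩
      rw [← cl_eq (T := ⟨T, hT⟩) h1]
      exact edge_up (T := ⟨T, hT⟩) hT0 b

theorem gpath_endp {X : Sys S B} {b : B} {l : List (Set S × B)} (h : IsGal X b l) :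
    FJ2.endp (cl X (ty0 S) b) (gpath X l) = cl X (ty0 S) (fin b l) := by
  induction l generalizing b with
  | nil => rfl
  | cons x l ih =>
    obtain ⟨T, c⟩ := x
    obtain ⟨hT, h1, h2⟩ := h
    by_cases hT0 : T = ∅
    · rw [gpath_cons_empty X T c l hT0]
      subst hT0
      have : b = c := X.zero _ _ h1
      rw [this]
      exact ih h2
    · rw [gpath_cons X T c l hT0 hT]
      exact ih h2

/-- homotopic galleries have homotopic edge paths -/
theorem gpath_hom {X : Sys S B} {b : B} {l m : List (Set S × B)} (h : Hom X b l m) :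
    IsGal X b l → FJ2.Htpy (cx X) (cl X (ty0 S) b) (gpath X l) (gpath X m) := by
  induction h with
  | refl => exact fun _ => FJ2.Htpy.refl _ _
  | symm b l m h ih => exact fun hg => (ih ((hom_isGal h).2 hg)).symm
  | trans b l m n h h' ih1 ih2 =>
    exact fun hg => (ih1 hg).trans _ _ _ _ (ih2 ((hom_isGal h).1 hg))
  | cons b x l m h ih =>
    rintro ⟨hT, h1, h2⟩
    obtain ⟨T, c⟩ := x
    have h3 := ih h2
    by_cases hT0 : T = ∅
    · rw [gpath_cons_empty X T c l hT0, gpath_cons_empty X T c m hT0]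
      subst hT0
      have : b = c := X.zero _ _ h1
      rw [this]
      exact h3
    · rw [gpath_cons X T c l hT0 hT, gpath_cons X T c m hT0 hT]
      exact FJ2.Htpy.cons _ _ _ _ (FJ2.Htpy.cons _ _ _ _ h3)
  | triv b T l hT =>
    intro _
    by_cases hT0 : T = ∅
    · rw [gpath_cons_empty X T b l hT0]
      exact FJ2.Htpy.refl _ _
    · rw [gpath_cons X T b l hT0 hT]
      exact FJ2.Htpy.spur _ _ _ (edge_up (T := ⟨T, hT⟩) hT0 b)
  | comp b c d T l hT h1 h2 =>
    intro _
    by_cases hT0 : T = ∅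
    · rw [gpath_cons_empty X T c _ hT0]
      exact FJ2.Htpy.refl _ _
    · rw [gpath_cons X T c _ hT0 hT, gpath_cons X T d _ hT0 hT]
      have h3 : cl X ⟨T, hT⟩ c = cl X ⟨T, hT⟩ d := cl_eq (T := ⟨T, hT⟩) h2
      rw [h3]
      refine FJ2.Htpy.cons _ _ _ _ (FJ2.Htpy.spur _ _ _ ?_)
      rw [← h3]
      exact edge_dn (T := ⟨T, hT⟩) hT0 c
  | sub b c T T' l hT hT' hTT h1 =>
    intro _
    by_cases hTT' : T = T'
    · subst hTT'
      exact FJ2.Htpy.refl _ _
    by_cases hT0 : T = ∅
    · rw [gpath_cons_empty X T c l hT0]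
      subst hT0
      have : b = c := X.zero _ _ h1
      subst this
      have hT0' : T' ≠ ∅ := fun h => hTT' h.symm
      rw [gpath_cons X T' b l hT0' hT']
      exact (FJ2.Htpy.spur _ _ _ (edge_up (T := ⟨T', hT'⟩) hT0' b)).symm
    · have hss : T ⊂ T' := Set.ssubset_iff_subset_ne.2 ⟨hTT, hTT'⟩
      have hT0' : T' ≠ ∅ := by
        rintro rfl
        exact hT0 (Set.subset_empty_iff.1 hTT)
      rw [gpath_cons X T c l hT0 hT, gpath_cons X T' c l hT0' hT']
      have hc1 : Cmp (⟨T, hT⟩ : Ty S) ⟨T', hT'⟩ := Or.inl hss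
      have hb0 : Cmp (ty0 S) ⟨T, hT⟩ := cmp0 (T := ⟨T, hT⟩) hT0
      have hb1 : Cmp (ty0 S) ⟨T', hT'⟩ := cmp0 (T := ⟨T', hT'⟩) hT0'
      have e1 : cl X ⟨T, hT⟩ b = cl X ⟨T, hT⟩ c := cl_eq (T := ⟨T, hT⟩) h1
      have e2 : cl X ⟨T', hT'⟩ b = cl X ⟨T', hT'⟩ c :=
        cl_eq (T := ⟨T', hT'⟩) (X.mono _ _ _ _ hTT hT hT' h1)
      have t1 : (cx X).tri (cl X (ty0 S) b) (cl X ⟨T, hT⟩ c) (cl X ⟨T', hT'⟩ c) :=
        ⟨b, ty0 S, ⟨T, hT⟩, ⟨T', hT'⟩, hb0, hc1, hb1, rfl, e1.symm, e2.symm⟩
      have t2 : (cx X).tri (cl X ⟨T, hT⟩ c) (cl X ⟨T', hT'⟩ c) (cl X (ty0 S) c) :=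
        ⟨c, ⟨T, hT⟩, ⟨T', hT'⟩, ty0 S, hc1, cmp_symm hb1, cmp_symm hb0, rfl, rfl, rfl⟩
      exact ((FJ2.Htpy.tri _ _ _ _ t1).symm.trans _ _ _ _
        (FJ2.Htpy.cons _ _ _ _ (FJ2.Htpy.tri _ _ _ _ t2))).symm

/-- every edge path is homotopic to the path of a gallery -/
theorem exists_gal {X : Sys S B} (l : List (Vert X)) : ∀ (T : Ty S) (b : B),
    FJ2.IsPath (cx X) (cl X T b) l → ∃ (g : List (Set S × B)) (T' : Ty S), IsGal X b g ∧
      FJ2.endp (cl X T b) l = cl X T' (fin b g) ∧
      FJ2.Htpy (cx X) (cl X T b) l (dn X T b ++ (gpath X g ++ up X T' (fin b g))) := by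
  induction l with
  | nil =>
    intro T b _
    refine ⟨[], T, trivial, rfl, ?_⟩
    by_cases hT : T.1 = ∅
    · simp only [dn, up, if_pos hT, gpath_nil, List.nil_append]
      exact FJ2.Htpy.refl _ _
    · simp only [dn, up, if_neg hT, gpath_nil, List.nil_append]
      exact (FJ2.Htpy.spur _ _ _ (edge_dn hT b)).symm
  | cons w l ih =>
    rintro T b ⟨⟨c, T1, T2, h12, hv, hw⟩, hl⟩
    obtain ⟨rfl, hbc⟩ := cl_inj hv
    subst hw
    obtain ⟨g, T', hg, he, hh⟩ := ih T2 c hl
    refine ⟨(T.1, c) :: g, T', ⟨T.2, hbc, hg⟩, he, ?_⟩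
    have h1 := FJ2.Htpy.cons (cl X T b) (cl X T2 c) _ _ hh
    refine h1.trans _ _ _ _ ?_
    change FJ2.Htpy (cx X) (cl X T b) (cl X T2 c :: (dn X T2 c ++ (gpath X g ++ up X T' (fin c g))))
      (dn X T b ++ (gpath X ((T.1, c) :: g) ++ up X T' (fin c g)))
    generalize up X T' (fin c g) = u
    by_cases hT : T.1 = ∅
    · have hT2 : T2.1 ≠ ∅ := by
        intro h
        rcases h12 with h' | h'
        · rw [h] at h'
          exact h'.2 (Set.empty_subset _)
        · rw [hT] at h'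
          exact h'.2 (Set.empty_subset _)
      rw [gpath_cons_empty X _ _ _ hT]
      simp only [dn, if_pos hT, if_neg hT2, List.nil_append, List.cons_append]
      have : b = c := X.zero _ _ (by rw [← hT]; exact hbc)
      subst this
      rw [eq_ty0 hT]
      exact FJ2.Htpy.spur _ _ _ (edge_up hT2 b)
    · rw [gpath_cons X T.1 c g hT T.2]
      simp only [dn, if_neg hT, List.nil_append, List.cons_append]
      have e1 : cl X T b = cl X ⟨T.1, T.2⟩ c := cl_eq (T := T) hbc
      have h2 : FJ2.Htpy (cx X) (cl X T b) (cl X (ty0 S) b :: cl X ⟨T.1, T.2⟩ c ::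
          cl X (ty0 S) c :: (gpath X g ++ u)) (cl X (ty0 S) c :: (gpath X g ++ u)) := by
        rw [← e1]
        exact FJ2.Htpy.spur _ _ _ (edge_dn hT b)
      refine FJ2.Htpy.trans _ _ _ _ ?_ h2.symm
      by_cases hT2 : T2.1 = ∅
      · simp only [if_pos hT2, List.nil_append]
        rw [eq_ty0 hT2]
        exact FJ2.Htpy.refl _ _
      · simp only [if_neg hT2, List.nil_append, List.cons_append]
        refine FJ2.Htpy.tri _ _ _ _ ?_
        exact ⟨c, T, T2, ty0 S, h12, cmp_symm (cmp0 hT2), cmp_symm (cmp0 hT), hv, rfl, rfl⟩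

end Realise

open Realise in
/-- the realisation of a simply connected chamber system is simply connected -/
theorem cx_sc (X : Sys S B) (hX : X.SC) : FJ2.SimplyConnected (cx X) := by
  obtain ⟨⟨b0⟩, hcon, hsc⟩ := hX
  refine ⟨⟨cl X (ty0 S) b0⟩, ?_, ?_⟩
  · intro v w
    obtain ⟨a, ha⟩ := cl_surj v
    obtain ⟨b, hb⟩ := cl_surj w
    obtain ⟨g, hg, hfin⟩ := hcon a b
    refine ⟨dn X v.1 a ++ (gpath X g ++ up X w.1 b), ?_, ?_⟩
    · have h1 : FJ2.endp v (dn X v.1 a) = cl X (ty0 S) a := by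
        unfold dn
        split_ifs with h
        · rw [ha]
          exact congrArg (fun T => cl X T a) (eq_ty0 h)
        · rfl
      rw [FJ2.isPath_append, FJ2.isPath_append, h1, gpath_endp hg, hfin]
      refine ⟨?_, gpath_isPath hg, ?_⟩
      · unfold dn
        split_ifs with h
        · trivial
        · refine ⟨?_, trivial⟩
          conv_lhs => rw [ha]
          exact edge_dn h a
      · unfold up
        split_ifs with h
        · trivial
        · exact ⟨edge_up h b, trivial⟩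
    · have h1 : FJ2.endp v (dn X v.1 a) = cl X (ty0 S) a := by
        unfold dn
        split_ifs with h
        · rw [ha]
          exact congrArg (fun T => cl X T a) (eq_ty0 h)
        · rfl
      rw [FJ2.endp_append, FJ2.endp_append, h1, gpath_endp hg, hfin]
      unfold up
      split_ifs with h
      · rw [hb]
        exact congrArg (fun T => cl X T b) (eq_ty0 h).symm
      · exact hb.symm
  · intro v l hl hv
    obtain ⟨b, hb⟩ := cl_surj v
    generalize v.1 = T at hb
    subst hb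
    obtain ⟨g, T', hg, he, hh⟩ := exists_gal l T b hl
    rw [hv] at he
    obtain ⟨rfl, hbc⟩ := cl_inj he
    refine hh.trans _ _ _ _ ?_
    have hg1 : IsGal X b (g ++ [(T.1, b)]) := by
      rw [isGal_append]
      exact ⟨hg, T.2, X.symm _ _ _ T.2 hbc, trivial⟩
    have hf1 : fin b (g ++ [(T.1, b)]) = b := by
      rw [fin_append]
      rfl
    have h1 := gpath_hom (hsc b _ hg1 hf1) hg1
    rw [gpath_append, gpath_nil] at h1
    by_cases hT : T.1 = ∅
    · rw [gpath_cons_empty X _ _ _ hT, gpath_nil, List.append_nil] at h1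
      simp only [dn, up, if_pos hT, List.nil_append, List.append_nil]
      rw [eq_ty0 hT]
      exact h1
    · rw [gpath_cons X _ _ _ hT T.2, gpath_nil] at h1
      simp only [dn, up, if_neg hT, List.cons_append, List.nil_append]
      have e1 : cl X T (fin b g) = cl X T b := (cl_eq hbc).symm
      rw [e1]
      have e2 : cl X ⟨T.1, T.2⟩ b = cl X T b := rfl
      rw [e2] at h1
      -- add a spur
      have h2 : FJ2.Htpy (cx X) (cl X (ty0 S) b) (gpath X g ++ [cl X T b])
          (gpath X g ++ [cl X T b, cl X (ty0 S) b, cl X T b]) := by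
        apply FJ2.Htpy.append_left
        rw [gpath_endp hg]
        exact (FJ2.Htpy.cons _ _ _ _ (FJ2.Htpy.spur _ _ _ (edge_dn hT b))).symm
      have h3 : FJ2.Htpy (cx X) (cl X (ty0 S) b)
          (gpath X g ++ [cl X T b, cl X (ty0 S) b, cl X T b]) [cl X T b] := by
        have := h1.append_right [cl X T b]
        simpa using this
      have h4 := FJ2.Htpy.cons (cl X T b) (cl X (ty0 S) b) _ _ (h2.trans _ _ _ _ h3)
      exact h4.trans _ _ _ _ (FJ2.Htpy.spur _ _ _ (edge_dn hT b))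

namespace Realise

/-! ### The metric -/

/-- the rank of a type -/
noncomputable def rk (T : Ty S) : ℕ := T.1.ncard

theorem rk_le (T : Ty S) : rk T ≤ 2 := by
  unfold rk
  rcases T.2 with h | ⟨s, h⟩ | ⟨s, t, hst, h⟩
  · rw [h]; simp
  · rw [h]; simp
  · rw [h, Set.ncard_pair hst]

theorem ty_finite (T : Ty S) : T.1.Finite := by
  rcases T.2 with h | ⟨s, h⟩ | ⟨s, t, hst, h⟩
  · rw [h]; exact Set.finite_empty
  · rw [h]; exact Set.finite_singleton _
  · rw [h]; exact (Set.finite_singleton _).insert _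

theorem rk_lt {T T' : Ty S} (h : T.1 ⊂ T'.1) : rk T < rk T' :=
  Set.ncard_lt_ncard h (ty_finite T')

theorem rk_ne {T T' : Ty S} (h : Cmp T T') : rk T ≠ rk T' := by
  rcases h with h | h
  · exact (rk_lt h).ne
  · exact (rk_lt h).ne'

theorem sub_of_rk {T T' : Ty S} (h : Cmp T T') (h' : rk T < rk T') : T.1 ⊂ T'.1 := by
  rcases h with h | h
  · exact h
  · exact absurd (rk_lt h) (by omega)

theorem rk_zero {T : Ty S} (h : rk T = 0) : T = ty0 S := by
  apply Subtype.ext
  exact (Set.ncard_eq_zero (ty_finite T)).1 h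

theorem rk_one {T : Ty S} (h : rk T = 1) : ∃ s, T.1 = {s} := Set.ncard_eq_one.1 h

theorem rk_eq_two {T : Ty S} (h : rk T = 2) : ∃ s t, s ≠ t ∧ T.1 = {s, t} := Set.ncard_eq_two.1 h

/-- the lengths of the edges in terms of the ranks -/
noncomputable def ell : ℕ → ℕ → ℝ
  | 0, 1 => 1
  | 1, 0 => 1
  | 1, 2 => √3
  | 2, 1 => √3
  | 0, 2 => 2
  | 2, 0 => 2
  | _, _ => 1

/-- the rank of a vertex -/
noncomputable def vrk {X : Sys S B} (v : Vert X) : ℕ := rk v.1

/-- the lengths of the edges -/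
noncomputable def len (X : Sys S B) (v w : Vert X) : ℝ := ell (vrk v) (vrk w)

theorem vrk_le {X : Sys S B} (v : Vert X) : vrk v ≤ 2 := rk_le _

theorem tri_rk {X : Sys S B} {u v w : Vert X} (h : (cx X).tri u v w) :
    vrk u ≠ vrk v ∧ vrk v ≠ vrk w ∧ vrk u ≠ vrk w := by
  obtain ⟨b, T, T', T'', h1, h2, h3, rfl, rfl, rfl⟩ := h
  exact ⟨rk_ne h1, rk_ne h2, rk_ne h3⟩

theorem ell_symm (i j : ℕ) (hi : i ≤ 2) (hj : j ≤ 2) : ell i j = ell j i := by
  interval_cases i <;> interval_cases j <;> rfl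

theorem ell_pos (i j : ℕ) (hi : i ≤ 2) (hj : j ≤ 2) : 0 < ell i j := by
  interval_cases i <;> interval_cases j <;> simp [ell]

/-- the corner in terms of the ranks -/
noncomputable def cor (i j k : ℕ) : ℝ :=
  Real.arccos ((ell i j ^ 2 + ell i k ^ 2 - ell j k ^ 2) / (2 * ell i j * ell i k))

theorem cor_eq (X : Sys S B) (a b c : Vert X) :
    FJ2.corner (len X) a b c = cor (vrk a) (vrk b) (vrk c) := rfl

theorem sqrt3_sq : (√3 : ℝ) ^ 2 = 3 := Real.sq_sqrt (by norm_num)

theorem cor0 (j k : ℕ) (hj : j ≤ 2) (hk : k ≤ 2) (h1 : 0 ≠ j) (h2 : j ≠ k) (h3 : 0 ≠ k) :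
    cor 0 j k = Real.pi / 3 := by
  have key : Real.arccos (1 / 2) = Real.pi / 3 := by
    rw [← Real.cos_pi_div_three]
    exact Real.arccos_cos (by positivity) (by linarith [Real.pi_pos])
  interval_cases j <;> interval_cases k <;> simp_all only [ne_eq, not_true_eq_false] <;>
    (unfold cor; rw [← key]; congr 1; simp only [ell]; rw [sqrt3_sq]; norm_num)

theorem cor1 (j k : ℕ) (hj : j ≤ 2) (hk : k ≤ 2) (h1 : 1 ≠ j) (h2 : j ≠ k) (h3 : 1 ≠ k) :
    cor 1 j k = Real.pi / 2 := by
  interval_cases j <;> interval_cases k <;> simp_all only [ne_eq, not_true_eq_false] <;>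
    (unfold cor; rw [← Real.arccos_zero]; congr 1; simp only [ell]; rw [sqrt3_sq]; norm_num)

theorem cor2 (j k : ℕ) (hj : j ≤ 2) (hk : k ≤ 2) (h1 : 2 ≠ j) (h2 : j ≠ k) (h3 : 2 ≠ k) :
    cor 2 j k = Real.pi / 6 := by
  have key : Real.arccos (√3 / 2) = Real.pi / 6 := by
    rw [← Real.cos_pi_div_six]
    exact Real.arccos_cos (by positivity) (by linarith [Real.pi_pos])
  have h0 : (√3 : ℝ) ≠ 0 := by positivity
  interval_cases j <;> interval_cases k <;> simp_all only [ne_eq, not_true_eq_false] <;>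
    (unfold cor; rw [← key]; congr 1; simp only [ell]; rw [sqrt3_sq]; field_simp;
     rw [sqrt3_sq]; norm_num)

theorem ell_triangle (i j k : ℕ) (hi : i ≤ 2) (hj : j ≤ 2) (hk : k ≤ 2) (h1 : i ≠ j)
    (h2 : j ≠ k) (h3 : i ≠ k) : ell i k < ell i j + ell j k := by
  have h4 : (1 : ℝ) < √3 := by
    rw [Real.lt_sqrt (by norm_num)]
    norm_num
  have h5 : (√3 : ℝ) < 2 := by
    rw [Real.sqrt_lt' (by norm_num)]
    norm_num
  interval_cases i <;> interval_cases j <;> interval_cases k <;>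
    simp_all only [ne_eq, not_true_eq_false] <;> (simp only [ell]; linarith)

/-! ### Links -/

/-- a closed simple path in the link of `a`, continued periodically -/
structure Loop (X : Sys S B) (a : Vert X) (n : ℕ) (f : ℕ → Vert X) : Prop where
  three : 3 ≤ n
  per : ∀ i, f (i + n) = f i
  inj : ∀ i j, f i = f j → i % n = j % n
  tri : ∀ i, (cx X).tri a (f i) (f (i + 1))

theorem Loop.shift {X : Sys S B} {a : Vert X} {n : ℕ} {f : ℕ → Vert X} (h : Loop X a n f) :
    Loop X a n (fun i => f (i + 1)) where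
  three := h.three
  per i := by
    have := h.per (i + 1)
    rw [← this]
    congr 1
    omega
  inj i j hij := Nat.ModEq.add_right_cancel' 1 (h.inj _ _ hij)
  tri i := h.tri (i + 1)

theorem Loop.of {X : Sys S B} {a : Vert X} {n : ℕ} {b : ℕ → Vert X} (hn : 3 ≤ n)
    (hb : b n = b 0) (hinj : ∀ i j, i < n → j < n → b i = b j → i = j)
    (htri : ∀ i, i < n → (cx X).tri a (b i) (b (i + 1))) : Loop X a n (fun i => b (i % n)) where
  three := hn
  per i := by simp
  inj i j hij := hinj _ _ (Nat.mod_lt _ (by omega)) (Nat.mod_lt _ (by omega)) hij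
  tri i := by
    have h1 : i % n < n := Nat.mod_lt _ (by omega)
    have h2 := htri _ h1
    have h3 : b ((i + 1) % n) = b (i % n + 1) := by
      by_cases h : i % n + 1 < n
      · congr 1
        rw [Nat.add_mod, Nat.mod_eq_of_lt (show 1 < n by omega), Nat.mod_eq_of_lt h]
      · have h4 : i % n + 1 = n := by omega
        have h5 : (i + 1) % n = 0 := by
          rw [Nat.add_mod, Nat.mod_eq_of_lt (show 1 < n by omega), h4, Nat.mod_self]
        rw [h4, h5, hb]
    change (cx X).tri a (b (i % n)) (b ((i + 1) % n))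
    rw [h3]
    exact h2

theorem Loop.rk_add {X : Sys S B} {a : Vert X} {n : ℕ} {f : ℕ → Vert X} (h : Loop X a n f)
    (i : ℕ) : vrk a + vrk (f i) + vrk (f (i + 1)) = 3 := by
  have h1 := tri_rk (h.tri i)
  have h2 := vrk_le a
  have h3 := vrk_le (f i)
  have h4 := vrk_le (f (i + 1))
  omega

theorem Loop.rk_two {X : Sys S B} {a : Vert X} {n : ℕ} {f : ℕ → Vert X} (h : Loop X a n f)
    (i : ℕ) : vrk (f (i + 2)) = vrk (f i) := by
  have h1 := h.rk_add i
  have h2 := h.rk_add (i + 1)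
  change vrk a + vrk (f (i + 1)) + vrk (f (i + 2)) = 3 at h2
  omega

theorem Loop.rk_even {X : Sys S B} {a : Vert X} {n : ℕ} {f : ℕ → Vert X} (h : Loop X a n f)
    (i k : ℕ) : vrk (f (i + 2 * k)) = vrk (f i) := by
  induction k with
  | zero => rfl
  | succ k ih =>
    rw [show i + 2 * (k + 1) = i + 2 * k + 2 by ring, h.rk_two, ih]

theorem Loop.even {X : Sys S B} {a : Vert X} {n : ℕ} {f : ℕ → Vert X} (h : Loop X a n f) :
    Even n := by
  by_contra hodd
  rw [Nat.not_even_iff_odd] at hodd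
  obtain ⟨k, hk⟩ := hodd
  have h1 : f (0 + n) = f 0 := h.per 0
  have h2 := h.rk_even 1 k
  have h3 := h.rk_add 0
  have h4 := (tri_rk (h.tri 0)).2.1
  rw [show 0 + n = 1 + 2 * k by omega] at h1
  rw [h1] at h2
  exact h4 h2

/-- members of types -/
theorem ty_eq_pair {T : Set S} (hT : IsTy T) {s t : S} (hs : s ∈ T) (ht : t ∈ T) (hst : s ≠ t) :
    T = {s, t} := by
  rcases hT with rfl | ⟨u, rfl⟩ | ⟨u, v, huv, rfl⟩
  · exact absurd hs (Set.notMem_empty _)
  · rw [Set.mem_singleton_iff] at hs ht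
    exact absurd (hs.trans ht.symm) hst
  · simp only [Set.mem_insert_iff, Set.mem_singleton_iff] at hs ht
    rcases hs with rfl | rfl <;> rcases ht with rfl | rfl
    · exact absurd rfl hst
    · rfl
    · exact Set.pair_comm _ _
    · exact absurd rfl hst

/-- links of chambers -/
theorem Loop.chamber' {X : Sys S B} {a : Vert X} {n : ℕ} {f : ℕ → Vert X} (h : Loop X a n f)
    (ha : vrk a = 0) (hf : vrk (f 0) = 1) : 6 ≤ n := by
  obtain ⟨k, hk⟩ := h.even
  have h3 := h.three
  by_contra hlt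
  have hn : n = 4 := by omega
  subst hn
  obtain ⟨b, hb⟩ := cl_surj a
  have ha0 : a.1 = ty0 S := rk_zero ha
  -- every vertex of the link is a class of b
  have hcl : ∀ i, f i = cl X (f i).1 b := by
    intro i
    obtain ⟨c, T, T', T'', _, _, _, h1, h2, _⟩ := h.tri i
    rw [hb] at h1
    obtain ⟨h4, h5⟩ := cl_inj h1
    rw [ha0] at h5
    have : b = c := X.zero _ _ h5
    subst this
    rw [h2]
    rfl
  have hcmp : ∀ i, Cmp (f i).1 (f (i + 1)).1 := by
    intro i
    obtain ⟨c, T, T', T'', _, h6, _, h1, h2, h3⟩ := h.tri i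
    rw [h2, h3]
    exact h6
  have r0 : rk (f 0).1 = 1 := hf
  have r1 : rk (f 1).1 = 2 := by
    have := h.rk_add 0
    change vrk a + rk (f 0).1 + rk (f 1).1 = 3 at this
    omega
  have r2 : rk (f 2).1 = 1 := (h.rk_two 0).trans hf
  have r3 : rk (f 3).1 = 2 := (h.rk_two 1).trans r1
  obtain ⟨s, hs⟩ := rk_one r0
  obtain ⟨t, ht⟩ := rk_one r2
  have hst : s ≠ t := by
    rintro rfl
    have h1 : (f 0).1 = (f 2).1 := Subtype.ext (hs.trans ht.symm)
    have h2 : f 0 = f 2 := by rw [hcl 0, hcl 2, h1]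
    have := h.inj _ _ h2
    omega
  have s01 := sub_of_rk (hcmp 0) (by change rk (f 0).1 < rk (f 1).1; omega)
  have s21 := sub_of_rk (cmp_symm (hcmp 1)) (by change rk (f 2).1 < rk (f 1).1; omega)
  have s23 := sub_of_rk (hcmp 2) (by change rk (f 2).1 < rk (f 3).1; omega)
  have h04 : f 4 = f 0 := h.per 0
  have s03 := sub_of_rk (cmp_symm (hcmp 3)) (by
    change rk (f 4).1 < rk (f 3).1
    rw [h04]; omega)
  change (f 4).1.1 ⊂ (f 3).1.1 at s03
  rw [h04] at s03
  have e1 : (f 1).1.1 = {s, t} := ty_eq_pair (f 1).1.2 (s01.1 (by rw [hs]; rfl))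
    (s21.1 (by change t ∈ (f 2).1.1; rw [ht]; rfl)) hst
  have e3 : (f 3).1.1 = {s, t} := ty_eq_pair (f 3).1.2 (s03.1 (by rw [hs]; rfl))
    (s23.1 (by rw [ht]; rfl)) hst
  have h1 : (f 1).1 = (f 3).1 := Subtype.ext (e1.trans e3.symm)
  have h2 : f 1 = f 3 := by rw [hcl 1, hcl 3, h1]
  have := h.inj _ _ h2
  omega

theorem Loop.chamber {X : Sys S B} {a : Vert X} {n : ℕ} {f : ℕ → Vert X} (h : Loop X a n f)
    (ha : vrk a = 0) : 6 ≤ n := by
  by_cases h1 : vrk (f 0) = 1
  · exact h.chamber' ha h1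
  · refine h.shift.chamber' ha ?_
    have h2 := h.rk_add 0
    have h3 := (tri_rk (h.tri 0)).1
    have h4 := vrk_le (f 0)
    change vrk (f (0 + 1)) = 1
    omega

theorem Loop.panel {X : Sys S B} {a : Vert X} {n : ℕ} {f : ℕ → Vert X} (h : Loop X a n f) :
    4 ≤ n := by
  obtain ⟨k, hk⟩ := h.even
  have h3 := h.three
  omega

/-- links of rank two classes -/
theorem Loop.two' {X : Sys S B} {a : Vert X} {n : ℕ} {f : ℕ → Vert X} (h : Loop X a n f)
    (ha : vrk a = 2) (hf : vrk (f 0) = 0) : 12 ≤ n := by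
  obtain ⟨k, hk⟩ := h.even
  have h3 := h.three
  obtain ⟨p, q, hpq, hT⟩ := rk_eq_two ha
  -- the chambers
  have r0 : ∀ j, (f (2 * j)).1 = ty0 S := by
    intro j
    have := h.rk_even 0 j
    rw [zero_add] at this
    exact rk_zero (this.trans hf)
  have hc : ∀ j, ∃ c, f (2 * j) = cl X (ty0 S) c := by
    intro j
    obtain ⟨c, hc⟩ := cl_surj (f (2 * j))
    rw [r0 j] at hc
    exact ⟨c, hc⟩
  choose c hc using hc
  have r1 : ∀ j, rk (f (2 * j + 1)).1 = 1 := by
    intro j
    have h4 := h.rk_add (2 * j)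
    have h5 : vrk (f (2 * j)) = 0 := by
      have := h.rk_even 0 j
      rw [zero_add] at this
      exact this.trans hf
    change vrk a + vrk (f (2 * j)) + rk (f (2 * j + 1)).1 = 3 at h4
    omega
  have hu : ∀ j, ∃ u, (u = p ∨ u = q) ∧ (f (2 * j + 1)).1.1 = {u} ∧
      f (2 * j + 1) = cl X (f (2 * j + 1)).1 (c j) ∧
      f (2 * j + 1) = cl X (f (2 * j + 1)).1 (c (j + 1)) := by
    intro j
    obtain ⟨u, hu⟩ := rk_one (r1 j)
    refine ⟨u, ?_, hu, ?_, ?_⟩
    · obtain ⟨b, T, T', T'', h1, h2, h3, h4, h5, h6⟩ := h.tri (2 * j)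
      have h7 : T = a.1 := congrArg Sigma.fst h4.symm
      have h8 : T'' = (f (2 * j + 1)).1 := congrArg Sigma.fst h6.symm
      have h9 : T''.1 ⊂ T.1 := by
        refine sub_of_rk (cmp_symm h3) ?_
        rw [h7, h8, r1 j]
        change 1 < vrk a
        omega
      have h10 : u ∈ T.1 := h9.1 (by rw [h8, hu]; rfl)
      rw [h7, hT] at h10
      simpa using h10
    · obtain ⟨b, T, T', T'', h1, h2, h3, h4, h5, h6⟩ := h.tri (2 * j)
      rw [hc j] at h5
      obtain ⟨h7, h8⟩ := cl_inj h5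
      have : c j = b := X.zero _ _ h8
      rw [this, h6]
      rfl
    · obtain ⟨b, T, T', T'', h1, h2, h3, h4, h5, h6⟩ := h.tri (2 * j + 1)
      have h9 : f (2 * j + 1 + 1) = cl X (ty0 S) (c (j + 1)) := hc (j + 1)
      rw [h9] at h6
      obtain ⟨h7, h8⟩ := cl_inj h6
      have : c (j + 1) = b := X.zero _ _ h8
      rw [this, h5]
      rfl
  choose u hpq' hu1 hu2 hu3 using hu
  have hne : ∀ j, u j ≠ u (j + 1) := by
    intro j hj
    have h1 : (f (2 * j + 1)).1 = (f (2 * (j + 1) + 1)).1 := by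
      apply Subtype.ext
      rw [hu1 j, hu1 (j + 1), hj]
    have h2 : f (2 * j + 1) = f (2 * (j + 1) + 1) := by
      rw [hu3 j, hu2 (j + 1), h1]
    have h4 := h.inj _ _ h2
    have h5 : (2 * j + 1) % n = (2 * j + 1 + 2) % n := h4
    have h6 : n ∣ 2 := by
      have := (Nat.modEq_iff_dvd' (show 2 * j + 1 ≤ 2 * j + 1 + 2 by omega)).1 h5
      simpa using this
    have := Nat.le_of_dvd (by norm_num) h6
    omega
  have hrel : ∀ j, X.r {u j} (c j) (c (j + 1)) := by
    intro j
    have h1 := (hu2 j).symm.trans (hu3 j)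
    have h2 := (cl_inj h1).2
    rwa [hu1 j] at h2
  have hcne : ∀ j, c j ≠ c (j + 1) := by
    intro j hj
    have h2 : f (2 * j) = f (2 * (j + 1)) := by rw [hc j, hc (j + 1), hj]
    have h4 := h.inj _ _ h2
    have h5 : (2 * j) % n = (2 * j + 2) % n := h4
    have h6 : n ∣ 2 := by
      have := (Nat.modEq_iff_dvd' (show 2 * j ≤ 2 * j + 2 by omega)).1 h5
      simpa using this
    have := Nat.le_of_dvd (by norm_num) h6
    omega
  have halt : ∀ j, u (j + 2) = u j := by
    intro j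
    have h1 := hne j
    have h2 := hne (j + 1)
    change u (j + 1) ≠ u (j + 2) at h2
    rcases hpq' j with h4 | h4 <;> rcases hpq' (j + 1) with h5 | h5 <;>
      rcases hpq' (j + 2) with h6 | h6 <;> rw [h4, h6] <;> exfalso <;>
      first
      | exact h1 (h4.trans h5.symm)
      | exact h2 (h5.trans h6.symm)
  have hcper : c k = c 0 := by
    have h1 : f (2 * k) = f 0 := by
      have := h.per 0
      rwa [show 0 + n = 2 * k by omega] at this
    have h2 : cl X (ty0 S) (c k) = cl X (ty0 S) (c 0) := by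
      rw [← hc k, ← hc 0]
      exact h1
    exact X.zero _ _ (cl_inj h2).2
  have huper : u k = u 0 := by
    have h1 : f (2 * k + 1) = f 1 := by
      have := h.per 1
      rwa [show 1 + n = 2 * k + 1 by omega] at this
    have h2 : (f (2 * k + 1)).1.1 = (f (2 * 0 + 1)).1.1 := by
      rw [h1]
    rw [hu1 k, hu1 0] at h2
    exact Set.singleton_injective h2
  have u01 := hne 0
  have u2 := halt 0
  have u3 := halt 1
  have u4 := halt 2
  have u5 := halt 3
  norm_num at u01 u2 u3 u4 u5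
  by_contra hlt
  have hk5 : k ≤ 5 := by omega
  have hk2 : 2 ≤ k := by omega
  interval_cases k
  · -- k = 2
    have h1 := hrel 0
    have h2 := hrel 1
    norm_num at h1 h2
    rw [hcper] at h2
    exact hcne 0 (X.two _ _ _ _ u01 h1 (X.symm _ _ _ (Or.inr (Or.inl ⟨_, rfl⟩)) h2))
  · exact u01 (by rw [← huper, u3])
  · have h0 := hrel 0
    have h1 := hrel 1
    have h2 := hrel 2
    have h3' := hrel 3
    norm_num at h0 h1 h2 h3'
    rw [hcper] at h3'
    rw [u2] at h2
    rw [u3] at h3'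
    rcases X.four _ _ _ _ _ _ u01 h0 h1 h2 h3' with h | h
    · exact hcne 0 h
    · exact hcne 1 h
  · exact u01 (by rw [← huper, u5, u3])

theorem Loop.two {X : Sys S B} {a : Vert X} {n : ℕ} {f : ℕ → Vert X} (h : Loop X a n f)
    (ha : vrk a = 2) : 12 ≤ n := by
  by_cases h1 : vrk (f 0) = 0
  · exact h.two' ha h1
  · refine h.shift.two' ha ?_
    have h2 := h.rk_add 0
    change vrk (f (0 + 1)) = 0
    omega

theorem npc (X : Sys S B) : FJ2.NPC (cx X) (len X) where
  symm a b := ell_symm _ _ (vrk_le a) (vrk_le b)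
  pos a b _ := ell_pos _ _ (vrk_le a) (vrk_le b)
  triangle a b c h := by
    have h1 := tri_rk h
    exact ell_triangle _ _ _ (vrk_le a) (vrk_le b) (vrk_le c) h1.1 h1.2.1 h1.2.2
  link a n b hn hb hinj htri := by
    have hL := Loop.of hn hb hinj htri
    have ha := vrk_le a
    have hpi := Real.pi_pos
    obtain h0 | h0 | h0 : vrk a = 0 ∨ vrk a = 1 ∨ vrk a = 2 := by omega
    · have h1 : ∀ i ∈ Finset.range n, FJ2.corner (len X) a (b i) (b (i + 1)) = Real.pi / 3 := by
        intro i hi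
        have h2 := tri_rk (htri i (Finset.mem_range.1 hi))
        rw [cor_eq, h0]
        rw [h0] at h2
        exact cor0 _ _ (vrk_le _) (vrk_le _) h2.1 h2.2.1 h2.2.2
      rw [Finset.sum_congr rfl h1, Finset.sum_const, Finset.card_range, nsmul_eq_mul]
      have h2 : (6 : ℝ) ≤ n := by exact_mod_cast hL.chamber h0
      nlinarith
    · have h1 : ∀ i ∈ Finset.range n, FJ2.corner (len X) a (b i) (b (i + 1)) = Real.pi / 2 := by
        intro i hi
        have h2 := tri_rk (htri i (Finset.mem_range.1 hi))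
        rw [cor_eq, h0]
        rw [h0] at h2
        exact cor1 _ _ (vrk_le _) (vrk_le _) h2.1 h2.2.1 h2.2.2
      rw [Finset.sum_congr rfl h1, Finset.sum_const, Finset.card_range, nsmul_eq_mul]
      have h2 : (4 : ℝ) ≤ n := by exact_mod_cast hL.panel
      nlinarith
    · have h1 : ∀ i ∈ Finset.range n, FJ2.corner (len X) a (b i) (b (i + 1)) = Real.pi / 6 := by
        intro i hi
        have h2 := tri_rk (htri i (Finset.mem_range.1 hi))
        rw [cor_eq, h0]
        rw [h0] at h2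
        exact cor2 _ _ (vrk_le _) (vrk_le _) h2.1 h2.2.1 h2.2.2
      rw [Finset.sum_congr rfl h1, Finset.sum_const, Finset.card_range, nsmul_eq_mul]
      have h2 : (12 : ℝ) ≤ n := by exact_mod_cast hL.two h0
      nlinarith

/-! ### The action -/

section

variable (X : Sys S B) (G : Type) [Group G] [MulAction G B] (hG : X.Inv G)

/-- the action on the vertices of the realisation -/
def act (g : G) (v : Vert X) : Vert X :=
  ⟨v.1, Quotient.map (sa := X.setoid v.1) (sb := X.setoid v.1) (g • ·)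
    (fun b c h => hG g v.1.1 b c h) v.2⟩

theorem act_cl (g : G) (T : Ty S) (b : B) : act X G hG g (cl X T b) = cl X T (g • b) := rfl

/-- the action on the vertices of the realisation -/
@[reducible] def vact : MulAction G (Vert X) where
  smul g v := act X G hG g v
  one_smul v := by
    obtain ⟨b, hb⟩ := cl_surj v
    change act X G hG 1 v = v
    rw [hb, act_cl, one_smul]
  mul_smul g h v := by
    obtain ⟨b, hb⟩ := cl_surj v
    change act X G hG (g * h) v = act X G hG g (act X G hG h v)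
    rw [hb, act_cl, act_cl, act_cl, mul_smul]

theorem smul_cl (g : G) (T : Ty S) (b : B) :
    letI := vact X G hG
    g • cl X T b = cl X T (g • b) := rfl

theorem actsProperly (hfin : ∀ T b, IsTy T → (X.stab G T b).Finite) :
    letI := vact X G hG
    FJ2.ActsProperly G (cx X) (len X) := by
  let _ := vact X G hG
  refine ⟨?_, ?_, ?_, ?_⟩
  · rintro g v w ⟨b, T, T', h, rfl, rfl⟩
    exact ⟨g • b, T, T', h, rfl, rfl⟩
  · rintro g u v w ⟨b, T, T', T'', h, h', h'', rfl, rfl, rfl⟩
    exact ⟨g • b, T, T', T'', h, h', h'', rfl, rfl, rfl⟩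
  · intro g v w _
    rfl
  · intro v
    obtain ⟨b, hb⟩ := cl_surj v
    refine (hfin v.1.1 b v.1.2).subset ?_
    intro g hg
    have h1 : g • v = v := hg
    rw [hb] at h1
    have h2 : cl X v.1 (g • b) = cl X v.1 b := h1
    exact X.symm _ _ _ v.1.2 (cl_inj h2).2

end

theorem closed2 {P : ∀ (G : Type) [Group G], Prop} (hP : Closed P) : FJ2.Closed2 P :=
  ⟨hP.cat, hP.colim⟩

end Realise

open Realise in
/-- groups acting with finite stabilisers on a simply connected chamber system of large type -/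
theorem proper {P : ∀ (G : Type) [Group G], Prop} (hP : Closed P) (G S B : Type) [Group G]
    [MulAction G B] (X : Sys S B) (hX : X.SC) (hG : X.Inv G)
    (hfin : ∀ T b, IsTy T → (X.stab G T b).Finite) : P G := by
  let _ := vact X G hG
  exact FJ2.closed_proper (closed2 hP) (cx X) (len X) (cx_sc X hX) (npc X)
    (actsProperly X G hG hfin)

end Pool.Agent.helper36.LT
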